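import Pool.Agent.helper48.TH.Spec2

/-! # Row SUX of project TH -/

set_option autoImplicit false

namespace TP.TW

open DP MeasureTheory Finset

theorem SUX_sum (A Ω : Finset V) (B : (V → Bool) → Finset V) (hB : ∀ β, B β ⊆ Ω) :
    ∑ v ∈ A ∪ Ω, ((if v ∈ A then (1 : ℝ) else 0) + Pr {β | v ∈ B β}) = #A + ∑ v ∈ Ω, Pr {β | v ∈ B β} := by
  rw [sum_add_distrib]
  have e1 : ∑ v ∈ A ∪ Ω, (if v ∈ A then (1 : ℝ) else 0) = #A := by
    rw [← sum_filter, sum_const, nsmul_eq_mul, mul_one]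
    have : (A ∪ Ω).filter (fun v => v ∈ A) = A := by
      ext v
      simp only [mem_filter, mem_union]
      tauto
    rw [this]
  have e2 : ∑ v ∈ A ∪ Ω, Pr {β | v ∈ B β} = ∑ v ∈ Ω, Pr {β | v ∈ B β} := by
    symm
    apply sum_subset subset_union_right
    intro v _ hv
    have : {β : V → Bool | v ∈ B β} = ∅ := by
      ext β
      simp only [Set.mem_setOf_eq, Set.mem_empty_iff_false, iff_false]
      exact fun h => hv (hB β h)
    rw [this]
    simp [Pr]
  rw [e1, e2]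

theorem SUX (h1 : SUG_stmt) (h2 : D3_stmt) : SUX_stmt := by
  obtain ⟨C, hC, H⟩ := h1 1
  refine ⟨2 * C, by positivity, ?_⟩
  intro n A Ω B hn hA hΩ hT
  have h3 := H n (fun β => A ∪ B β) (A ∪ Ω) (fun v => (if v ∈ A then 1 else 0) + Pr {β | v ∈ B β}) 2 hn
    (union_subset hA hΩ) (h2 A Ω B hT)
  rw [SUX_sum A Ω B hT.2.2.1] at h3
  refine h3.trans (le_of_eq ?_)
  ring

end TP.TW
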